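import Pool.Agent.Q154.MaxMin

set_option autoImplicit false

/-!
# The symmetric power functor has at least two extensions to the Kleisli category of max-min measures
-/

open Metric Set CategoryTheory

namespace Pool.Agent.Results.MP_6cdbe4_gt.TwoExtensions

open Q154.MaxMin

/-- The discrete metric on the two point space. -/
@[instance_reducible] noncomputable def twoMetric : MetricSpace Bool where
  dist x y := if x = y then 0 else 1
  dist_self x := if_pos rfl
  dist_comm x y := by cases x <;> cases y <;> simp
  dist_triangle x y z := by cases x <;> cases y <;> cases z <;> simp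
  eq_of_dist_eq_zero {x y} h := by
    by_contra hne
    have : (if x = y then (0 : ℝ) else 1) = 0 := h
    rw [if_neg hne] at this
    norm_num at this

theorem two_ultra : @IsUltrametricDist Bool twoMetric.toDist := by
  refine @IsUltrametricDist.mk Bool twoMetric.toDist fun x y z => ?_
  show (if x = z then (0 : ℝ) else 1) ≤ max (if x = y then (0 : ℝ) else 1) (if y = z then 0 else 1)
  cases x <;> cases y <;> cases z <;> simp

/-- The two point space. -/
noncomputable def two : UMet := @UMet.mk Bool twoMetric two_ultra

/-- The one point space. -/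
noncomputable def one : UMet := @UMet.mk PUnit inferInstance ⟨fun _ _ _ => by simp⟩

/-- The measure `0 ∧ δ_true ∨ δ_false`. -/
noncomputable def m : J Bool where
  coef x := if x = true then 0 else ⊤
  finite_support := Set.toFinite _
  exists_top := ⟨false, by simp⟩

theorem const_nonexp {X Y : Type} [MetricSpace X] [MetricSpace Y] [IsUltrametricDist Y] (a : J Y)
    (x x' : X) : dJ a a ≤ dist x x' := by
  rw [dJ_le_iff _ _ dist_nonneg]
  intro r _ y
  rfl

/-- The constant morphism of the Kleisli category. -/
noncomputable def f : (⟨one⟩ : Kl) ⟶ ⟨two⟩ :=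
  ⟨fun _ => m, fun x x' => @const_nonexp one two _ _ _ m x x'⟩

/-- For every `n ≥ 1` the functor `SP^n` has two different extensions to the Kleisli category. -/
theorem result (n : ℕ) (hn : 1 ≤ n) :
    ∃ F₁ F₂ : Kl ⥤ Kl, F₁ ≠ F₂ ∧ Phi ⋙ F₁ = SPn n ⋙ Phi ∧ Phi ⋙ F₂ = SPn n ⋙ Phi := by
  refine ⟨std n, std n ⋙ Tw shift, ?_, std_extends n, ?_⟩
  · intro h
    have h1 : (std n).map f = (std n ⋙ Tw shift).map f := eq_of_heq (Functor.hcongr_hom h f)
    have h2 : ext (fun _ : PUnit => m) (orb fun _ : Fin n => PUnit.unit) =
        twist shift (ext (fun _ : PUnit => m) (orb fun _ : Fin n => PUnit.unit)) :=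
      congrFun (congrArg KHom.toFun h1) (orb fun _ : Fin n => PUnit.unit)
    have h3 := congrFun (congrArg J.coef h2) (orb fun _ : Fin n => true)
    rw [twist_coef, ext_orb, lam_coef] at h3
    have h4 : (⨆ (y : Fin n → Bool) (_ : orb y = orb fun _ : Fin n => true),
        ⨅ i, m.coef (y i)) = 0 := by
      have : Nonempty (Fin n) := ⟨⟨0, hn⟩⟩
      apply le_antisymm
      · refine iSup₂_le fun y hy => ?_
        obtain ⟨σ, hσ⟩ := orb_eq.1 hy
        have hy1 : ∀ i, y i = true := by
          intro i
          have := congrFun hσ (σ⁻¹ i)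
          simpa using this.symm
        refine (iInf_le _ ⟨0, hn⟩).trans ?_
        rw [hy1]
        exact le_rfl
      · refine le_iSup₂_of_le (fun _ => true) rfl ?_
        exact le_iInf fun i => le_rfl
    rw [h4] at h3
    exact shift_zero h3.symm
  · rw [← Functor.assoc, std_extends, Functor.assoc, Phi_Tw]

end Pool.Agent.Results.MP_6cdbe4_gt.TwoExtensions
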